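import Mathlib

set_option autoImplicit false

namespace Pool.Agent.MP_2a5a28_nt.H37

/-- The ring `ℤ[α]`, `α = (1 + √5)/2`, inside `ℝ`. -/
abbrev O : Type := ↥(Algebra.adjoin ℤ ({Real.goldenRatio} : Set ℝ))

/-- The height `H` of the triple `(x₁ + y₁ α, x₂ + y₂ α, x₃ + y₃ α)`. -/
noncomputable def ht (x₁ y₁ x₂ y₂ x₃ y₃ : ℤ) : ℝ :=
  max (max |(x₁ : ℝ) + (y₁ : ℝ) * Real.goldenRatio| |(x₂ : ℝ) + (y₂ : ℝ) * Real.goldenRatio|)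
      |(x₃ : ℝ) + (y₃ : ℝ) * Real.goldenRatio| *
    max (max |(x₁ : ℝ) + (y₁ : ℝ) * Real.goldenConj| |(x₂ : ℝ) + (y₂ : ℝ) * Real.goldenConj|)
      |(x₃ : ℝ) + (y₃ : ℝ) * Real.goldenConj|

/-- The product of the norms of the nonzero prime ideals containing `t`. -/
noncomputable def rad (t : O) : ℝ :=
  ∏ᶠ (P : Ideal O) (_ : P.IsPrime ∧ P ≠ ⊥ ∧ t ∈ P), ((Nat.card (O ⧸ P) : ℕ) : ℝ)

end Pool.Agent.MP_2a5a28_nt.H37
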